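import Pool.Agent.W679.ST.Stm

/-!
# Volumes of `QQ` and `DD` (tasks ST3 and ST5)
-/

set_option autoImplicit false

namespace Pool.Agent.W32.ST

open MeasureTheory W679ST
open scoped ENNReal

/-- volume of the preimage under a matrix -/
theorem vol_pre {n : ℕ} (M : Matrix (Fin n) (Fin n) ℝ) (hM : M.det ≠ 0) (S : Set (Fin n → ℝ)) :
    volume {z : EuclideanSpace ℝ (Fin n) | M.mulVec (fun i => z i) ∈ S} =
      ENNReal.ofReal |M.det⁻¹| * volume S := by
  have h1 := (EuclideanSpace.volume_preserving_symm_measurableEquiv_toLp (Fin n)).measure_preimage_equiv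
    ((Matrix.toLin' M) ⁻¹' S)
  have h2 : LinearMap.det (Matrix.toLin' M) ≠ 0 := by rwa [LinearMap.det_toLin']
  rw [Measure.addHaar_preimage_linearMap volume h2, LinearMap.det_toLin'] at h1
  rw [← h1]
  congr 1

/-- the matrix for `QQ` -/
def MQ (m : ℕ) (η κ : ℝ) : Matrix (Fin (m + 1)) (Fin (m + 1)) ℝ := fun i j =>
  if i = 0 then (if j = 0 then η else -κ) else if i = j then 1 else 0

theorem MQ_zero (m : ℕ) (η κ : ℝ) (z : Fin (m + 1) → ℝ) :
    (MQ m η κ).mulVec z 0 = η * z 0 - κ * ∑ i : Fin m, z i.succ := by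
  rw [Matrix.mulVec, dotProduct, Fin.sum_univ_succ, Finset.mul_sum, sub_eq_add_neg,
    ← Finset.sum_neg_distrib]
  congr 1
  refine Finset.sum_congr rfl fun i _ => ?_
  simp [MQ, Fin.succ_ne_zero]

theorem MQ_succ (m : ℕ) (η κ : ℝ) (z : Fin (m + 1) → ℝ) (i : Fin m) :
    (MQ m η κ).mulVec z i.succ = z i.succ := by
  rw [Matrix.mulVec, dotProduct, Finset.sum_eq_single i.succ]
  · simp [MQ, Fin.succ_ne_zero]
  · intro j _ hj
    simp [MQ, Fin.succ_ne_zero, hj.symm]
  · intro h
    exact absurd (Finset.mem_univ _) h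

theorem MQ_det (m : ℕ) (η κ : ℝ) : (MQ m η κ).det = η := by
  rw [Matrix.det_of_upperTriangular]
  · rw [Fin.prod_univ_succ]
    simp [MQ, Fin.succ_ne_zero]
  · intro i j hij
    have hi : i ≠ 0 := by
      rintro rfl
      exact absurd hij (not_lt.2 (Fin.zero_le _))
    have hne : i ≠ j := fun h => absurd hij (by rw [h]; exact lt_irrefl _)
    simp [MQ, hi, hne]

theorem ST3 : S_ST3 := by
  intro m η κ hη
  have hset : QQ m η κ = {z : EuclideanSpace ℝ (Fin (m + 1)) |
      (MQ m η κ).mulVec (fun i => z i) ∈ Set.pi Set.univ (fun _ : Fin (m + 1) => Set.Icc (-1 : ℝ) 1)} := by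
    ext z
    show ((∀ i : Fin m, |z i.succ| ≤ 1) ∧ |η * z 0 - κ * ∑ i : Fin m, z i.succ| ≤ 1) ↔
      (MQ m η κ).mulVec (fun i => z i) ∈ Set.pi Set.univ (fun _ : Fin (m + 1) => Set.Icc (-1 : ℝ) 1)
    rw [Set.mem_univ_pi]
    constructor
    · rintro ⟨h1, h2⟩ i
      refine Fin.cases ?_ (fun i => ?_) i
      · rw [MQ_zero]; exact abs_le.1 h2
      · rw [MQ_succ]; exact abs_le.1 (h1 i)
    · intro h
      refine ⟨fun i => ?_, ?_⟩
      · have := h i.succ
        rw [MQ_succ] at this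
        exact abs_le.2 this
      · have := h 0
        rw [MQ_zero] at this
        exact abs_le.2 this
  rw [hset, vol_pre _ (by rw [MQ_det]; exact hη.ne'), MQ_det, MeasureTheory.volume_pi_pi]
  simp only [Real.volume_Icc, Finset.prod_const, Finset.card_univ, Fintype.card_fin]
  rw [abs_of_pos (inv_pos.2 hη), ← ENNReal.ofReal_pow (by norm_num),
    ← ENNReal.ofReal_mul (inv_pos.2 hη).le]
  congr 1
  norm_num
  ring

/-- the upper triangular matrix for `DD` -/
def MU {m : ℕ} (u : Fin (m + 1) → ℝ) : Matrix (Fin (m + 1)) (Fin (m + 1)) ℝ := fun i j =>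
  if i = 0 then u j else if i = j then 1 else 0

theorem MU_zero {m : ℕ} (u z : Fin (m + 1) → ℝ) : (MU u).mulVec z 0 = ∑ j, u j * z j := by
  rw [Matrix.mulVec, dotProduct]
  exact Finset.sum_congr rfl fun j _ => by simp [MU]

theorem MU_succ {m : ℕ} (u z : Fin (m + 1) → ℝ) (i : Fin m) :
    (MU u).mulVec z i.succ = z i.succ := by
  rw [Matrix.mulVec, dotProduct, Finset.sum_eq_single i.succ]
  · simp [MU, Fin.succ_ne_zero]
  · intro j _ hj
    simp [MU, Fin.succ_ne_zero, hj.symm]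
  · intro h
    exact absurd (Finset.mem_univ _) h

theorem MU_det {m : ℕ} (u : Fin (m + 1) → ℝ) : (MU u).det = u 0 := by
  rw [Matrix.det_of_upperTriangular]
  · rw [Fin.prod_univ_succ]
    simp [MU, Fin.succ_ne_zero]
  · intro i j hij
    have hi : i ≠ 0 := by
      rintro rfl
      exact absurd hij (not_lt.2 (Fin.zero_le _))
    have hne : i ≠ j := fun h => absurd hij (by rw [h]; exact lt_irrefl _)
    simp [MU, hi, hne]

/-- the lower triangular matrix for `DD` -/
def ML {m : ℕ} (u : Fin (m + 1) → ℝ) : Matrix (Fin (m + 1)) (Fin (m + 1)) ℝ := fun i j =>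
  if i = j then 1 else if j = 0 then -u i else 0

theorem ML_zero {m : ℕ} (u z : Fin (m + 1) → ℝ) : (ML u).mulVec z 0 = z 0 := by
  rw [Matrix.mulVec, dotProduct, Finset.sum_eq_single 0]
  · simp [ML]
  · intro j _ hj
    simp [ML, hj, hj.symm]
  · intro h
    exact absurd (Finset.mem_univ _) h

theorem ML_succ {m : ℕ} (u z : Fin (m + 1) → ℝ) (i : Fin m) :
    (ML u).mulVec z i.succ = z i.succ - z 0 * u i.succ := by
  rw [Matrix.mulVec, dotProduct, Fin.sum_univ_succ, Finset.sum_eq_single i]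
  · simp [ML, Fin.succ_ne_zero]
    ring
  · intro j _ hj
    have : i.succ ≠ j.succ := fun h => hj (Fin.succ_injective _ h).symm
    simp [ML, this, Fin.succ_ne_zero]
  · intro h
    exact absurd (Finset.mem_univ _) h

theorem ML_det {m : ℕ} (u : Fin (m + 1) → ℝ) : (ML u).det = 1 := by
  rw [Matrix.det_of_lowerTriangular]
  · exact Finset.prod_eq_one fun i _ => by simp [ML]
  · intro i j hij
    have hij' : i < j := hij
    have hj : j ≠ 0 := by
      rintro rfl
      exact absurd hij' (not_lt.2 (Fin.zero_le _))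
    simp [ML, hij'.ne, hj]

/-- the base -/
def CC {m : ℕ} (r : Fin m → ℝ) : Set (Fin m → ℝ) :=
  {q | (∀ i, |q i| ≤ 1) ∧ |∑ i, r i * q i| ≤ 1}

theorem CC_meas {m : ℕ} (r : Fin m → ℝ) : MeasurableSet (CC r) := by
  apply IsClosed.measurableSet
  have h : CC r = (⋂ i, {q : Fin m → ℝ | |q i| ≤ 1}) ∩ {q | |∑ i, r i * q i| ≤ 1} := by
    ext q
    simp [CC]
  rw [h]
  apply IsClosed.inter
  · exact isClosed_iInter fun i => isClosed_le (by fun_prop) continuous_const
  · exact isClosed_le (by fun_prop) continuous_const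

/-- the region -/
def GG {m : ℕ} (r : Fin m → ℝ) (b : ℝ) : Set (Fin (m + 1) → ℝ) :=
  {g | (fun i : Fin m => g i.succ) ∈ CC r ∧ |g 0| ≤ b * ∑ i, r i * (1 - |g i.succ|)}

theorem GG_vol {m : ℕ} (r : Fin m → ℝ) (hr : ∀ i, 0 ≤ r i) {b : ℝ} (hb : 0 ≤ b) :
    volume (GG r b) = ENNReal.ofReal (2 * b) *
      ∫⁻ q in CC r, ENNReal.ofReal (∑ i, r i * (1 - |q i|)) := by
  set G' : Set (ℝ × (Fin m → ℝ)) := {p | p.2 ∈ CC r ∧ |p.1| ≤ b * ∑ i, r i * (1 - |p.2 i|)} with hG'
  have hG'm : MeasurableSet G' := by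
    apply MeasurableSet.inter
    · exact measurable_snd (CC_meas r)
    · apply IsClosed.measurableSet
      exact isClosed_le (f := fun p : ℝ × (Fin m → ℝ) => |p.1|)
        (g := fun p : ℝ × (Fin m → ℝ) => b * ∑ i, r i * (1 - |p.2 i|)) (by fun_prop) (by fun_prop)
  have h1 : GG r b = (MeasurableEquiv.piFinSuccAbove (fun _ : Fin (m + 1) => ℝ) 0) ⁻¹' G' := by
    ext g
    show ((fun i : Fin m => g i.succ) ∈ CC r ∧ |g 0| ≤ b * ∑ i, r i * (1 - |g i.succ|)) ↔ _
    rw [Set.mem_preimage, hG']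
    show _ ↔ ((fun i => g ((0 : Fin (m + 1)).succAbove i)) ∈ CC r ∧
      |g 0| ≤ b * ∑ i, r i * (1 - |g ((0 : Fin (m + 1)).succAbove i)|))
    simp only [Fin.succAbove_zero]
  rw [h1, (volume_preserving_piFinSuccAbove (fun _ : Fin (m + 1) => ℝ) 0).measure_preimage_equiv G']
  have h2 : volume G' = ∫⁻ q : Fin m → ℝ, volume ((fun s : ℝ => (s, q)) ⁻¹' G') := by
    rw [Measure.volume_eq_prod, Measure.prod_apply_symm hG'm]
  rw [h2]
  have h3 : ∀ q : Fin m → ℝ, volume ((fun s : ℝ => (s, q)) ⁻¹' G') =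
      (CC r).indicator (fun q => ENNReal.ofReal (2 * b) *
        ENNReal.ofReal (∑ i, r i * (1 - |q i|))) q := by
    intro q
    by_cases hq : q ∈ CC r
    · rw [Set.indicator_of_mem hq]
      have hS : 0 ≤ ∑ i, r i * (1 - |q i|) := Finset.sum_nonneg fun i _ =>
        mul_nonneg (hr i) (by linarith [hq.1 i])
      have h4 : (fun s : ℝ => (s, q)) ⁻¹' G' =
          Set.Icc (-(b * ∑ i, r i * (1 - |q i|))) (b * ∑ i, r i * (1 - |q i|)) := by
        ext s
        show (q ∈ CC r ∧ |s| ≤ b * ∑ i, r i * (1 - |q i|)) ↔ _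
        rw [Set.mem_Icc, ← abs_le]
        exact ⟨fun h => h.2, fun h => ⟨hq, h⟩⟩
      rw [h4, Real.volume_Icc, ← ENNReal.ofReal_mul (by linarith)]
      congr 1
      ring
    · rw [Set.indicator_of_notMem hq]
      have h4 : (fun s : ℝ => (s, q)) ⁻¹' G' = ∅ := by
        ext s
        simp only [Set.mem_preimage, Set.mem_empty_iff_false, iff_false]
        exact fun h => hq h.1
      rw [h4, measure_empty]
  rw [lintegral_congr h3, lintegral_indicator (CC_meas r), lintegral_const_mul']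
  exact ENNReal.ofReal_ne_top

theorem ST5 : S_ST5 := by
  intro m η κ u hη hu hu0 hr
  set M := ML (fun i => u i) * MU (fun i => u i) with hMdef
  have hdet : M.det = u 0 := by rw [hMdef, Matrix.det_mul, ML_det, MU_det, one_mul]
  have hnorm : u 0 ^ 2 + ∑ i : Fin m, u i.succ ^ 2 = 1 := by
    have h1 := EuclideanSpace.real_norm_sq_eq u
    rw [hu, Fin.sum_univ_succ] at h1
    linarith
  have hM0 : ∀ z : Fin (m + 1) → ℝ, M.mulVec z 0 = u 0 * z 0 + ∑ i : Fin m, u i.succ * z i.succ := by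
    intro z
    rw [hMdef, ← Matrix.mulVec_mulVec, ML_zero, MU_zero, Fin.sum_univ_succ]
  have hMs : ∀ (z : Fin (m + 1) → ℝ) (i : Fin m), M.mulVec z i.succ = z i.succ -
      (u 0 * z 0 + ∑ i : Fin m, u i.succ * z i.succ) * u i.succ := by
    intro z i
    rw [hMdef, ← Matrix.mulVec_mulVec, ML_succ, MU_zero, MU_succ, Fin.sum_univ_succ]
  have hsub : {z : EuclideanSpace ℝ (Fin (m + 1)) |
      M.mulVec (fun i => z i) ∈ GG (rr η κ u) (u 0 / η)} ⊆ DD η κ u := by
    intro z hz
    obtain ⟨⟨h1, h2⟩, h3⟩ := hz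
    set s := u 0 * z 0 + ∑ i : Fin m, u i.succ * z i.succ with hs
    have e0 : M.mulVec (fun i => z i) 0 = s := hM0 _
    have es : ∀ i : Fin m, M.mulVec (fun i => z i) i.succ = z i.succ - s * u i.succ := hMs _
    refine ⟨fun i => z i.succ - s * u i.succ, s, fun i => ?_, ?_, ?_, ?_, fun i => by ring⟩
    · have := h1 i
      beta_reduce at this
      rw [es] at this
      exact this
    · simp only [es] at h2
      exact h2
    · simp only [es, e0] at h3
      exact h3
    · have h5 : ∑ i : Fin m, u i.succ * (z i.succ - s * u i.succ) =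
          (s - u 0 * z 0) - s * (1 - u 0 ^ 2) := by
        have h6 : ∑ i : Fin m, u i.succ * (z i.succ - s * u i.succ) =
            ∑ i : Fin m, u i.succ * z i.succ - s * ∑ i : Fin m, u i.succ ^ 2 := by
          rw [Finset.mul_sum, ← Finset.sum_sub_distrib]
          exact Finset.sum_congr rfl fun i _ => by ring
        rw [h6]
        have h7 : ∑ i : Fin m, u i.succ * z i.succ = s - u 0 * z 0 := by rw [hs]; ring
        have h8 : ∑ i : Fin m, u i.succ ^ 2 = 1 - u 0 ^ 2 := by linarith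
        rw [h7, h8]
      rw [h5]
      field_simp
      ring
  refine le_trans (le_of_eq ?_) (measure_mono hsub)
  rw [vol_pre M (by rw [hdet]; exact hu0.ne'), hdet, GG_vol (rr η κ u) hr (by positivity),
    ← mul_assoc, abs_of_pos (inv_pos.2 hu0), ← ENNReal.ofReal_mul (inv_pos.2 hu0).le]
  have h9 : (u 0)⁻¹ * (2 * (u 0 / η)) = 2 / η := by field_simp
  rw [h9]
  rfl

end Pool.Agent.W32.ST
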